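import Mathlib
import Pool.Agent.N893.TB.Stm

/-! # TB/SUMLOG -/

set_option autoImplicit false

namespace Pool.Agent.N727.TB

open Filter Finset Asymptotics
open scoped Topology

/-- `log (k + 2)` -/
noncomputable def L (k : ℕ) : ℝ := Real.log ((k : ℝ) + 2)

theorem L_pos (k : ℕ) : 0 < L k := by
  unfold L
  apply Real.log_pos
  have : (0 : ℝ) ≤ k := Nat.cast_nonneg k
  linarith

theorem L_lt (k : ℕ) : L k < L (k + 1) := by
  unfold L
  apply Real.log_lt_log
  · have : (0 : ℝ) ≤ k := Nat.cast_nonneg k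
    linarith
  · push_cast
    linarith

theorem L_mono {k l : ℕ} (h : k ≤ l) : L k ≤ L l := by
  unfold L
  apply Real.log_le_log
  · have : (0 : ℝ) ≤ k := Nat.cast_nonneg k
    linarith
  · have : (k : ℝ) ≤ l := Nat.cast_le.2 h
    linarith

theorem L_top : Tendsto L atTop atTop := by
  unfold L
  exact Real.tendsto_log_atTop.comp (tendsto_atTop_add_const_right _ _ tendsto_natCast_atTop_atTop)

theorem L_sub : Tendsto (fun k : ℕ => L k - Real.log k) atTop (𝓝 0) := by
  unfold L
  exact (Real.tendsto_log_comp_add_sub_log 2).comp tendsto_natCast_atTop_atTop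

theorem L_sub' (k : ℕ) : (k : ℝ) * (L (k + 1) - L k) ≤ 1 := by
  have h0 : (0 : ℝ) ≤ k := Nat.cast_nonneg k
  have h1 : L (k + 1) - L k = Real.log (1 + 1 / ((k : ℝ) + 2)) := by
    unfold L
    rw [← Real.log_div (by push_cast; linarith) (by linarith)]
    congr 1
    push_cast
    field_simp
    ring
  have h2 : Real.log (1 + 1 / ((k : ℝ) + 2)) ≤ 1 / ((k : ℝ) + 2) := by
    have := Real.log_le_sub_one_of_pos (x := 1 + 1 / ((k : ℝ) + 2)) (by positivity)
    linarith
  rw [h1]
  calc (k : ℝ) * Real.log (1 + 1 / ((k : ℝ) + 2)) ≤ k * (1 / ((k : ℝ) + 2)) :=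
        mul_le_mul_of_nonneg_left h2 h0
    _ ≤ 1 := by
        rw [mul_one_div, div_le_one (by linarith)]
        linarith

theorem rat_tendsto : Tendsto (fun k : ℕ => Real.log k / L k) atTop (𝓝 1) := by
  have h1 : Tendsto (fun k : ℕ => (L k - Real.log k) / L k) atTop (𝓝 0) :=
    L_sub.div_atTop L_top
  have h2 : Tendsto (fun k : ℕ => 1 - (L k - Real.log k) / L k) atTop (𝓝 (1 - 0)) :=
    tendsto_const_nhds.sub h1
  rw [sub_zero] at h2
  refine h2.congr fun k => ?_
  have := L_pos k
  field_simp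
  ring

theorem rho_tendsto : Tendsto (fun k : ℕ => L k / L (k + 1)) atTop (𝓝 1) := by
  have h0 : Tendsto (fun k : ℕ => L (k + 1)) atTop atTop := L_top.comp (tendsto_add_atTop_nat 1)
  have h1 : Tendsto (fun k : ℕ => (1 : ℝ) / L (k + 1)) atTop (𝓝 0) :=
    tendsto_const_nhds.div_atTop h0
  have h2 : Tendsto (fun k : ℕ => 1 - (1 : ℝ) / L (k + 1)) atTop (𝓝 (1 - 0)) :=
    tendsto_const_nhds.sub h1
  rw [sub_zero] at h2
  refine tendsto_of_tendsto_of_tendsto_of_le_of_le' h2 tendsto_const_nhds ?_ ?_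
  · filter_upwards [eventually_ge_atTop 1] with k hk
    have h3 := L_sub' k
    have h4 : (1 : ℝ) ≤ k := by exact_mod_cast hk
    have h5 := L_lt k
    have h6 := L_pos (k + 1)
    have h7 : L (k + 1) - L k ≤ 1 := by nlinarith
    have h8 : (L (k + 1) - L k) / L (k + 1) ≤ 1 / L (k + 1) := by gcongr
    have h9 : (L (k + 1) - L k) / L (k + 1) = 1 - L k / L (k + 1) := by field_simp
    linarith
  · filter_upwards with k
    rw [div_le_one (L_pos _)]
    exact (L_lt k).le

/-- the comparison function -/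
noncomputable def h (s k : ℕ) : ℝ := (L k ^ s)⁻¹

theorem h_pos (s k : ℕ) : 0 < h s k := inv_pos.2 (pow_pos (L_pos k) s)

theorem S_top (s : ℕ) : Tendsto (fun K : ℕ => ∑ k ∈ range K, h s k) atTop atTop := by
  have h1 : ∀ K : ℕ, (K : ℝ) / L K ^ s ≤ ∑ k ∈ range K, h s k := by
    intro K
    have : ∑ k ∈ range K, (L K ^ s)⁻¹ ≤ ∑ k ∈ range K, h s k := by
      apply sum_le_sum
      intro k hk
      unfold h
      exact inv_anti₀ (pow_pos (L_pos k) s)
        (pow_le_pow_left₀ (L_pos k).le (L_mono (mem_range.1 hk).le) s)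
    rw [sum_const, card_range, nsmul_eq_mul] at this
    exact this
  have h2 : Tendsto (fun K : ℕ => (K : ℝ) / L K ^ s) atTop atTop := by
    have h3 : Tendsto (fun x : ℝ => Real.log x ^ s / x) atTop (𝓝 0) :=
      (Real.isLittleO_pow_log_id_atTop (n := s)).tendsto_div_nhds_zero
    have h4 : Tendsto (fun K : ℕ => L K ^ s / ((K : ℝ) + 2)) atTop (𝓝 0) :=
      h3.comp (tendsto_atTop_add_const_right _ _ tendsto_natCast_atTop_atTop)
    have h5 : Tendsto (fun K : ℕ => (L K ^ s / ((K : ℝ) + 2))⁻¹) atTop atTop := by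
      apply Tendsto.comp tendsto_inv_nhdsGT_zero
      rw [tendsto_nhdsWithin_iff]
      refine ⟨h4, Filter.Eventually.of_forall fun K => ?_⟩
      exact div_pos (pow_pos (L_pos K) s) (by positivity)
    refine tendsto_atTop_mono' _ ?_ (h5.atTop_div_const (by norm_num : (0 : ℝ) < 3))
    filter_upwards [eventually_ge_atTop 1] with K hK
    have h6 : (1 : ℝ) ≤ K := by exact_mod_cast hK
    have h7 := pow_pos (L_pos K) s
    rw [inv_div, div_div, div_le_div_iff₀ (by positivity) h7]
    nlinarith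
  exact tendsto_atTop_mono h1 h2

theorem sum_o (s : ℕ) (f : ℕ → ℝ) (C : ℝ)
    (hf : Tendsto (fun k => f k * L k ^ s) atTop (𝓝 C)) :
    Tendsto (fun K : ℕ => (∑ k ∈ range K, f k) / ∑ k ∈ range K, h s k) atTop (𝓝 C) := by
  have h1 : (fun k => f k - C * h s k) =o[atTop] (h s) := by
    rw [isLittleO_iff_tendsto (fun k hk => absurd hk (h_pos s k).ne')]
    have h2 : Tendsto (fun k => f k * L k ^ s - C) atTop (𝓝 (C - C)) := hf.sub_const C
    rw [sub_self] at h2
    refine h2.congr fun k => ?_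
    have := pow_pos (L_pos k) s
    unfold h
    field_simp
  have h3 := h1.sum_range (fun k => (h_pos s k).le) (S_top s)
  have h4 : Tendsto (fun K : ℕ => (∑ k ∈ range K, (f k - C * h s k)) / ∑ k ∈ range K, h s k) atTop
      (𝓝 0) := h3.tendsto_div_nhds_zero
  have h5 := h4.add_const C
  rw [zero_add] at h5
  refine h5.congr' ?_
  filter_upwards [eventually_ge_atTop 1] with K hK
  have h6 : 0 < ∑ k ∈ range K, h s k :=
    sum_pos (fun k _ => h_pos s k) ⟨0, mem_range.2 hK⟩
  rw [sum_sub_distrib, ← mul_sum]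
  field_simp
  ring

theorem incr (s : ℕ) : Tendsto (fun k : ℕ =>
    (((k + 1 : ℕ) : ℝ) / L (k + 1) ^ s - (k : ℝ) / L k ^ s) * L k ^ s) atTop (𝓝 1) := by
  have h0 : Tendsto (fun k : ℕ => L (k + 1)) atTop atTop := L_top.comp (tendsto_add_atTop_nat 1)
  have h1 : Tendsto (fun k : ℕ => (s : ℝ) / L (k + 1)) atTop (𝓝 0) :=
    tendsto_const_nhds.div_atTop h0
  have h2 : Tendsto (fun k : ℕ => (L k / L (k + 1)) ^ s) atTop (𝓝 1) := by
    have := rho_tendsto.pow s
    rwa [one_pow] at this
  have h3 : Tendsto (fun k : ℕ => (k : ℝ) * (1 - (L k / L (k + 1)) ^ s)) atTop (𝓝 0) := by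
    refine tendsto_of_tendsto_of_tendsto_of_le_of_le tendsto_const_nhds h1 ?_ ?_
    · intro k
      have h4 : (L k / L (k + 1)) ^ s ≤ 1 := pow_le_one₀ (div_nonneg (L_pos k).le (L_pos _).le)
        ((div_le_one (L_pos _)).2 (L_lt k).le)
      have h5 : (0 : ℝ) ≤ k := Nat.cast_nonneg k
      exact mul_nonneg h5 (by linarith)
    · intro k
      have h5 : (0 : ℝ) ≤ k := Nat.cast_nonneg k
      have hp := L_pos (k + 1)
      have h6 : (0 : ℝ) ≤ L k / L (k + 1) := div_nonneg (L_pos k).le hp.le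
      have h7 : 1 + (s : ℝ) * (L k / L (k + 1) - 1) ≤ (L k / L (k + 1)) ^ s := by
        have := one_add_mul_le_pow (a := L k / L (k + 1) - 1) (by linarith) s
        simpa using this
      have h8 := L_sub' k
      calc (k : ℝ) * (1 - (L k / L (k + 1)) ^ s) ≤ k * (s * (1 - L k / L (k + 1))) := by
            apply mul_le_mul_of_nonneg_left _ h5
            linarith
        _ = s * (k * (L (k + 1) - L k)) / L (k + 1) := by field_simp
        _ ≤ s * 1 / L (k + 1) := by gcongr
        _ = s / L (k + 1) := by rw [mul_one]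
  have h4 := h2.sub h3
  rw [sub_zero] at h4
  refine h4.congr fun k => ?_
  have hp := L_pos (k + 1)
  have hq := L_pos k
  rw [div_pow]
  push_cast
  field_simp
  ring

theorem F_tendsto (s : ℕ) :
    Tendsto (fun K : ℕ => ((K : ℝ) / L K ^ s) / ∑ k ∈ range K, h s k) atTop (𝓝 1) := by
  have h1 := sum_o s _ 1 (incr s)
  refine h1.congr fun K => ?_
  rw [sum_range_sub (fun k : ℕ => (k : ℝ) / L k ^ s) K]
  simp

theorem main : Pool.Agent.N893.TB.tSUMLOG := by
  intro g c s hg
  have hlog : Tendsto (fun k : ℕ => Real.log k) atTop atTop :=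
    Real.tendsto_log_atTop.comp tendsto_natCast_atTop_atTop
  have g0 : Tendsto g atTop (𝓝 0) := by
    have := hg.div_atTop hlog
    refine this.congr' ?_
    filter_upwards [hlog.eventually_gt_atTop 0] with k hk
    field_simp
  have g1 : Tendsto (fun k => g k * L k) atTop (𝓝 c) := by
    have := hg.add (g0.mul L_sub)
    rw [mul_zero, add_zero] at this
    refine this.congr fun k => ?_
    ring
  have g2 : Tendsto (fun k => g k ^ s * L k ^ s) atTop (𝓝 (c ^ s)) := by
    have := g1.pow s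
    refine this.congr fun k => ?_
    rw [mul_pow]
  have g3 := sum_o s _ _ g2
  have g4 := g3.div (F_tendsto s) one_ne_zero
  have g5 := g4.mul (rat_tendsto.pow s)
  rw [one_pow, mul_one, div_one] at g5
  refine g5.congr' ?_
  filter_upwards [eventually_ge_atTop 1] with K hK
  have h6 : 0 < ∑ k ∈ range K, h s k :=
    sum_pos (fun k _ => h_pos s k) ⟨0, mem_range.2 hK⟩
  have h7 : (0 : ℝ) < K := by exact_mod_cast hK
  have h8 := L_pos K
  simp only [Pi.div_apply]
  rw [div_pow]
  field_simp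

end Pool.Agent.N727.TB
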